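import Pool.Agent.WAQ.StmtsR
import Pool.Agent.WAQ.StmtsT

set_option autoImplicit false

/-!
# WAQ, row RGE: the multiples of a point without torsion are dense in the identity component
-/

namespace Pool.Agent.WAQ.H77R

open Pool.Agent.WAQ Pool.Agent.WAQ.R

attribute [local instance 10000] Pool.Agent.WAQ.R.decR

variable [Par]

theorem bigR_mono {d : ℝ} {N N' : ℝ} (h : N ≤ N') {P : Pt d} (hP : Big N' P) : Big N P := by
  rcases hP with h0 | h1
  · exact Or.inl h0
  · exact Or.inr (lt_of_le_of_lt h h1)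

/-- **RGE** -/
theorem rge (rgr : RgrStmt) (rhv : RhvStmt) (rsm : RsmStmt) (smn : SmnStmt) (gf : GoodF ℝ) :
    RgeStmt := by
  intro d hd P hP T hT N
  obtain ⟨N0, hN0⟩ := rgr d hd
  obtain ⟨m, Q, -, hQ, hQB⟩ := rhv d hd T hT N0
  obtain ⟨N', hN'⟩ := smn ℝ gf d hd (2 ^ m) N
  have hinj : Function.Injective (fun b : ℤ => sm b P) := by
    intro b b' h
    have h1 : sm b P = sm b' P := h
    have h2 : sm (b - b') P = 0 := by
      rw [G.sub_sm, h1, sub_self]
    by_contra hne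
    exact hP (b - b') (sub_ne_zero.2 hne) h2
  have hSsub : ∀ A ∈ Set.range (fun b : ℤ => sm b P), ∀ B ∈ Set.range (fun b : ℤ => sm b P),
      A - B ∈ Set.range (fun b : ℤ => sm b P) := by
    rintro A ⟨b, rfl⟩ B ⟨b', rfl⟩
    exact ⟨b - b', G.sub_sm b b' P⟩
  obtain ⟨e, ⟨b, hb⟩, he0, heB⟩ := rsm d hd (Set.range (fun b : ℤ => sm b P))
    (Set.infinite_range_of_injective hinj) hSsub (max N0 (2 * |N'|))
  obtain ⟨a, ha⟩ := hN0 e Q he0 (bigR_mono (le_max_left _ _) heB) hQB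
  have hlt : 2 * |N'| < ‖cX e / d‖ := by
    rcases heB with h | h
    · exact absurd h he0
    · exact lt_of_le_of_lt (le_max_right _ _) h
  have hle : N' ≤ ‖cX e / d‖ / 2 := by
    have := le_abs_self N'
    linarith
  have hfin := hN' _ (bigR_mono hle ha)
  refine ⟨2 ^ m * a * b, ?_⟩
  have e1 : T - sm (2 ^ m * a * b) P = sm (2 ^ m) (Q - sm a e) := by
    have hb' : sm b P = e := hb
    rw [G.sm_sub, hQ, ← hb', mul_assoc, G.mul_sm, G.mul_sm]
  rw [e1]
  exact hfin

end Pool.Agent.WAQ.H77R
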